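import Pool.Agent.H820.ML.Final

/-!
# Diffeomorphisms of the complex projective plane isotopic to symplectomorphisms

Let `ω` be the Fubini-Study form of `ℂℙ²`, and `φ` a diffeomorphism which acts trivially on the
homology. Q1 asks whether `φ` is smoothly isotopic to the identity; by a theorem of Gromov this
holds if and only if `φ` is smoothly isotopic to a symplectomorphism of `ω`. We prove that `φ` is
smoothly isotopic to a symplectomorphism if through every point of `ℂℙ²` passes an algebraic curve
(of any degree, possibly singular, depending on the point) on which `φ^* ω` is positive; at the
points at which `φ^* ω ∧ κ` is positive for a fixed form `κ` which tames the complex structure,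
for example for `κ = ω`, no curve is needed. For `κ = ω` the condition `φ^* ω ∧ ω > 0` at a point
says that the complex linear part of the differential of `φ` is larger than its antilinear part, in
the Hilbert-Schmidt norm. The condition on a curve `C` says that the restriction of `φ` to `C` is a
symplectic immersion of `C`, for the complex orientation; it holds for example if `φ(C)` is an
algebraic curve.

Idea of the proof. By the proof of the result `PositiveCurves` for the problem `MP_2fc7fa_gt` there
is a Kähler form `κ'` in the class of `ω` with `φ^* ω ∧ κ' > 0`; it is a convex combination of `κ`
and of Kähler forms which are concentrated near finitely many of the curves. Hence the segments from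
`φ^* ω` to `κ'` and from `κ'` to `ω` consist of symplectic forms, and Moser's method applies. We
carry it out on `ℂ³ ∖ {0}`, with a horizontal vector field which commutes with the multiplications
by complex numbers.

The diffeomorphisms which act trivially on the homology are those which lift to homogeneous
diffeomorphisms `F` of `ℂ³ ∖ {0}`; the statement is in terms of `F`. The definitions are in
`Pool.Agent.H820.PC.Defs` and `Pool.Agent.H820.ML.Defs`.
-/

set_option autoImplicit false

namespace Pool.Agent.Results.MP_28b04d_gt.CurveCriterion

open Pool.Agent.H820.PC Pool.Agent.H820.ML

/-- A diffeomorphism of `ℂℙ²` which acts trivially on the homology and satisfies the curve criterion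
is smoothly isotopic to a symplectomorphism of the Fubini-Study form. -/
theorem result (F : C3 → C3) (hF : IsDiffeo F) (hC : CurveCriterion F) :
    ∃ G : C3 → C3, IsSymplectomorphism G ∧ Isotopic F G := isotopic_of_criterion hF hC

end Pool.Agent.Results.MP_28b04d_gt.CurveCriterion
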