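import Pool.Agent.H820.RL.Final

/-!
# Diffeomorphisms of the complex projective plane which are positive on rotating contact planes

Let `φ` be a diffeomorphism of `ℂℙ²` which acts trivially on the homology, let `ω` be the
Fubini-Study form, and let `L` be a line and `p` a point not on `L`. The complement of `L` and `p`
is foliated by the round spheres about `p`. Each of these carries a family, parametrized by the
two-sphere, of contact structures which are invariant under `SU(2)`: the planes orthogonal to
`u₀ i x + u₁ j x + u₂ k x` (quaternionic multiplication on `ℂ² = ℍ`). We prove that `φ` is smoothly
isotopic to a symplectomorphism if `φ` maps `L` to a positively symplectic surface and, for each of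
the spheres, maps the planes of one of these contact structures to positively symplectic planes. The
contact structure may depend on the radius in an arbitrary way (no continuity is assumed); it may
rotate, for instance from the standard one near `L` to its opposite near `p`, in which case `φ^* ω`
is negative on the complex lines near `p`.

Idea of the proof. The vectors `u` which work for one sphere form a convex cone; near `p` the
self-dual part of `φ^* ω` at `p` works, and near `L` the vector `(1, 0, 0)`. So `u` can be chosen as
a smooth function of the radius. If `ψ` is a positive function which grows fast then the invariant
form `K = d (ψ (u₀ α₀ + u₁ α₁ + u₂ α₂))`, where the `αᵢ` are the invariant one-forms of the spheres,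
is symplectic, in the class of `ω`, and satisfies `φ^* ω ∧ K > 0`. So the segment from `φ^* ω` to
`K` consists of symplectic forms, and the path of invariant forms which moves the point of the curve
`ψ u` with the parameter `t` to the one with the parameter `τ t`, for `τ` from `1` to `0`, joins `K`
to `ω`. Moser's method, for the smooth path of connection forms obtained in this way, gives
diffeomorphisms `ψ_s` with `ψ_0 = id` such that `φ ∘ ψ_1` is a symplectomorphism.

The definitions are in `Pool.Agent.H820.PC.Defs`, `Pool.Agent.H820.RT.Defs`,
`Pool.Agent.H820.ML.Defs` and `Pool.Agent.H820.RL.Defs`: diffeomorphisms of `ℂℙ²` are written as
homogeneous maps of `ℂ³ ∖ {0}`; `L = {z₀ = 0}` and `p = [1 : 0 : 0]`.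
-/

set_option autoImplicit false

namespace Pool.Agent.Results.MP_28b04d_gt.RotatingPlanes

open Pool.Agent.H820.PC Pool.Agent.H820.ML Pool.Agent.H820.RL

/-- A diffeomorphism of `ℂℙ²` acting trivially on the homology for which the pull-back of the
Fubini-Study form is positive on a line and, on each of the round spheres in the complement of the
line, on one of the contact structures which are invariant under `SU(2)`, is smoothly isotopic to a
symplectomorphism of the Fubini-Study form. -/
theorem result (F : C3 → C3) (hF : IsDiffeo F) (h : RotatingMap F) :
    ∃ G, IsSymplectomorphism G ∧ Isotopic F G := isotopic_of_rotating hF h

end Pool.Agent.Results.MP_28b04d_gt.RotatingPlanes
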