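import Pool.Agent.H820.PT.Iso

/-!
# Diffeomorphisms of the complex projective plane which are positive on tubes

Let `ω` be the Fubini-Study form of `ℂℙ²`, and `φ` a diffeomorphism which acts trivially on the
homology. Q1 asks whether `φ` is smoothly isotopic to the identity; by a theorem of Gromov this
holds if and only if `φ` is smoothly isotopic to a symplectomorphism of `ω`.

A tube `{|P(z)|² ≤ c |z|^{2k}}` around an algebraic curve `{P = 0}` of degree `k` is foliated by the
level sets of the function `|P| / |z|^k`, which are hypersurfaces where its differential is not zero;
each of them carries a field of complex tangent lines (on the curve itself, which is the tube with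
`c = 0`, these are the tangent lines of the curve). We prove that `φ` is smoothly isotopic to a
symplectomorphism if every point of `ℂℙ²` belongs to such a tube, of any degree `k` and any width
`c ≥ 0`, on which `φ^* ω` is positive: it is positive on the complex tangent lines of the level sets
at all points of the tube (and on all complex lines at the critical points).

For example, let the tube be the whole of `ℂℙ²` (`c` large). Then the condition is that `φ` maps the
complex tangent planes of all level sets of `|P| / |z|^k`, with their complex orientations, to
planes on which `ω` is positive, for one polynomial `P` (and all complex lines at the critical points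
of `|P| / |z|^k`). For a linear form `P` these are the standard contact planes of the round spheres
about a point.

Idea of the proof. By the proof of the result `PositiveTubes` for the problem `MP_2fc7fa_gt` there is
a Kähler form `κ` in the class of `ω` with `φ^* ω ∧ κ > 0`: a convex combination of forms
`ω + d (ψ(α) dᶜα) / k`, `α = |P|² / |z|^{2k}`, which are concentrated near finitely many of the tubes
if they are multiplied by suitable weights. Hence the segments from `φ^* ω` to `κ` and from `κ` to `ω`
consist of symplectic forms, and Moser's method applies, as in the result `CurveCriterion`; it is
carried out on `ℂ³ ∖ {0}`, with a horizontal vector field which commutes with the multiplications by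
complex numbers.

The diffeomorphisms which act trivially on the homology are those which lift to homogeneous
diffeomorphisms `F` of `ℂ³ ∖ {0}`; the statement is in terms of `F`. The definitions are in
`Pool.Agent.H820.PC.Defs` and `Pool.Agent.H820.ML.Defs`, those of tubes in
`Pool.Agent.H820.PT.Defs`, and `TubeCriterion` is defined in `Pool.Agent.H820.PT.Iso`.
-/

set_option autoImplicit false

namespace Pool.Agent.Results.MP_28b04d_gt.TubeCriterion

open Pool.Agent.H820.PC Pool.Agent.H820.ML Pool.Agent.H820.PT

/-- A diffeomorphism of `ℂℙ²` which acts trivially on the homology and satisfies the tube criterion
is smoothly isotopic to a symplectomorphism of the Fubini-Study form. -/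
theorem result (F : C3 → C3) (hF : IsDiffeo F) (hC : TubeCriterion F) :
    ∃ G : C3 → C3, IsSymplectomorphism G ∧ Isotopic F G := isotopic_of_tubes hF hC

end Pool.Agent.Results.MP_28b04d_gt.TubeCriterion
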